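import Pool.Agent.Helper17.OD.GoalsFP

/-!
# Packet ANT: maximal antichains
-/

namespace Pool.Agent.Helper17.OD.PkANT

open Set

/-- Predecessors. -/
def prd (T₀ : Set T) (x : T) : Set T := {z | z ∈ T₀ ∧ z.lt x}

theorem wf_prd (hLTW : G_LTW.{2}) (T₀ : Set T) : WellFounded fun y x : T => y ∈ prd T₀ x := by
  refine Subrelation.wf (r := Tr.lt) ?_ (hLTW O)
  intro y x h
  exact h.2

/-- The order with bounds. -/
def LL (F : FD) (j : O) (u x : T) : Prop :=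
  ∃ j' ≤ F.κ, (Tr.ord j : T) = .ord j' ∧ u ∈ D (Iio F.κ) ∧ x ∈ D (Iio F.κ) ∧ F.Le j' u x

/-- Compatibility with bounds. -/
def CC (F : FD) (j : O) (s t : T) : Prop := ∃ u ∈ D (Iio F.γ), u ∈ F.P j ∧ LL F j u s ∧ LL F j u t

theorem LL_iff {F : FD} {j : O} (hj : j < F.κ) {u x : T} (hu : u ∈ D (Iio F.κ))
    (hx : x ∈ D (Iio F.κ)) : LL F j u x ↔ F.Le j u x := by
  constructor
  · rintro ⟨j', _, h1, _, _, h2⟩
    injection h1 with h1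
    subst h1
    exact h2
  · intro h
    exact ⟨j, hj.le, rfl, hu, hx, h⟩

theorem P_low (hPUN : G_PUN) {F : FD} {j : O} {p : T} (h : p ∈ F.P j) : p ∈ D (Iio F.κ) :=
  (((hPUN F).2 j p).1 h).low

theorem kg (F : FD) : (D (Iio F.κ) : Set T) ⊆ D (Iio F.γ) := D_mono (Iio_subset_Iio F.g.kg.le)

theorem CC_iff (hPUN : G_PUN) {F : FD} {j : O} (hj : j < F.κ) {s t : T} (hs : s ∈ F.P j)
    (ht : t ∈ F.P j) : CC F j s t ↔ F.Cp j s t := by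
  constructor
  · rintro ⟨u, _, h1, h2, h3⟩
    exact ⟨u, h1, (LL_iff hj (P_low hPUN h1) (P_low hPUN hs)).1 h2,
      (LL_iff hj (P_low hPUN h1) (P_low hPUN ht)).1 h3⟩
  · rintro ⟨u, h1, h2, h3⟩
    exact ⟨u, kg F (P_low hPUN h1), h1, (LL_iff hj (P_low hPUN h1) (P_low hPUN hs)).2 h2,
      (LL_iff hj (P_low hPUN h1) (P_low hPUN ht)).2 h3⟩

/-- The definition of the antichain. -/
def Psi (F : FD) (j : O) (T₀ : Set T) (x v : T) (G : Set T) : Prop :=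
  v = .nat 0 ∧ x ∈ T₀ ∧ ∀ x' ∈ D (Iio F.γ), Tr.pr x' (.nat 0) ∈ G → ¬ CC F j x' x

/-- The values. -/
noncomputable def FF (hLTW : G_LTW.{2}) (F : FD) (j : O) (T₀ : Set T) : T → Set T :=
  (wf_prd hLTW T₀).fix (C := fun _ => Set T) (fun x ih => {v | v ∈ D (Iio F.γ) ∧
    Psi F j T₀ x v {p | ∃ x' y' : T, p = .pr x' y' ∧ ∃ h : x' ∈ prd T₀ x, y' ∈ ih x' h}})

theorem FF_eq (hLTW : G_LTW.{2}) (F : FD) (j : O) (T₀ : Set T) (x : T) :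
    FF hLTW F j T₀ x = {v | v ∈ D (Iio F.γ) ∧
      Psi F j T₀ x v {p | ∃ x' y' : T, p = .pr x' y' ∧ x' ∈ prd T₀ x ∧
        y' ∈ FF hLTW F j T₀ x'}} := by
  unfold FF
  rw [WellFounded.fix_eq]
  simp only [exists_prop]

theorem mem_FF (hLTW : G_LTW.{2}) (hPUN : G_PUN) {F : FD} {j : O} (hj : j < F.κ) {T₀ : Set T}
    (hT₀ : T₀ ⊆ F.P j) (x : T) :
    (.nat 0 ∈ FF hLTW F j T₀ x) ↔ x ∈ T₀ ∧ ∀ x' ∈ T₀, x'.lt x → .nat 0 ∈ FF hLTW F j T₀ x' →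
      ¬ F.Cp j x' x := by
  rw [FF_eq]
  constructor
  · rintro ⟨_, _, h1, h2⟩
    refine ⟨h1, fun x' hx' hlt h3 h4 => ?_⟩
    exact h2 x' (kg F (P_low hPUN (hT₀ hx'))) ⟨x', _, rfl, ⟨hx', hlt⟩, h3⟩
      ((CC_iff hPUN hj (hT₀ hx') (hT₀ h1)).2 h4)
  · rintro ⟨h1, h2⟩
    refine ⟨nat_mem _ _, rfl, h1, ?_⟩
    rintro x' _ ⟨x'', y', h3, h4, h5⟩ h6
    injection h3 with h3 h3'
    subst h3 h3'
    exact h2 x' h4.1 h4.2 h5 ((CC_iff hPUN hj (hT₀ h4.1) (hT₀ h1)).1 h6)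

theorem thm (hREC : G_REC) (hTRE : G_TRE) (hLTO : G_LTO.{2}) (hLTW : G_LTW.{2})
    (hPUN : G_PUN) (hPIM : G_PIM) : G_ANT := by
  intro F j hj T₀ hT₀M hT₀
  have h : SOM F.γ F.M F.M := F.g.m1
  obtain ⟨b, hb, hTb⟩ := h.bdd T₀ hT₀M
  have hlt : SD F.γ F.M F.M (fun e _ => e.fst.lt e.snd) := (hTRE F.γ F.M F.M h).2.1
  obtain ⟨-, hLe, hP⟩ := hPIM F
  have hjk : j < F.γ := hj.trans F.g.kg
  have hLL : ∀ {s t : T → T}, ST F.γ s → ST F.γ t →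
      SD F.γ F.M F.M (fun e _ => LL F j (s e) (t e)) := by
    intro s t hs ht
    exact SD.sub (P := fun e _ => ∃ j ≤ F.κ, e.fst = .ord j ∧ e.snd.fst ∈ D (Iio F.κ) ∧
      e.snd.snd ∈ D (Iio F.κ) ∧ F.Le j e.snd.fst e.snd.snd) hLe (ST.pr (ST.ordc hjk) (hs.pr ht))
  have hCC : ∀ {s t : T → T}, ST F.γ s → ST F.γ t →
      SD F.γ F.M F.M (fun e _ => CC F j (s e) (t e)) := by
    intro s t hs ht
    unfold CC
    refine SD.exT (P := fun e u _ => u ∈ F.P j ∧ LL F j u (s e) ∧ LL F j u (t e)) ?_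
    exact SD.and (SD.mem (ST.fst ST.id) (SV.par (hP j hj.le)))
      (SD.and (hLL (ST.fst ST.id) (ST.comp hs (ST.snd ST.id)))
        (hLL (ST.fst ST.id) (ST.comp ht (ST.snd ST.id))))
  have hPsi : SD F.γ F.M F.M (fun e σ => Psi F j T₀ e.fst e.snd (σ 0)) := by
    unfold Psi
    refine SD.and (SD.eq (ST.snd ST.id) (ST.nat 0)) (SD.and (SD.mem (ST.fst ST.id)
      (SV.par hT₀M)) ?_)
    refine SD.allT (P := fun e x' σ => Tr.pr x' (.nat 0) ∈ σ 0 → ¬ CC F j x' e.fst) ?_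
    exact SD.imp (SD.mem (ST.pr (ST.fst ST.id) (ST.nat 0)) (SV.var 0))
      (SD.not (hCC (ST.fst ST.id) (ST.fst (ST.snd ST.id))))
  have hprd : SD F.γ F.M F.M (fun e _ => e.fst ∈ prd T₀ e.snd) :=
    SD.and (SD.mem (ST.fst ST.id) (SV.par hT₀M)) hlt
  have hcl : ∃ d₀ < F.γ, ∀ d < F.γ, d₀ ≤ d → ∀ x ∈ D (Iio d), prd T₀ x ⊆ D (Iio d) :=
    ⟨b, hb, fun d _ hd x _ z hz => D_mono (Iio_subset_Iio hd) (hTb hz.1)⟩
  have hF : ∀ x ∈ D (Iio F.γ), ∀ y, y ∈ FF hLTW F j T₀ x ↔ y ∈ D (Iio F.γ) ∧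
      Psi F j T₀ x y {p | ∃ x' y' : T, p = .pr x' y' ∧ x' ∈ prd T₀ x ∧
        y' ∈ FF hLTW F j T₀ x'} := by
    intro x _ y
    rw [FF_eq]
    rfl
  have hbd : ∀ d < F.γ, ∃ b < F.γ, ∀ x ∈ D (Iio d), FF hLTW F j T₀ x ⊆ D (Iio b) := by
    intro d _
    refine ⟨0, lt_of_le_of_lt bot_le h.omg, fun x _ y hy => ?_⟩
    rw [FF_eq] at hy
    rw [hy.2.1]
    exact nat_mem _ _
  have hrec := (hREC F.γ F.M F.M h (prd T₀) (FF hLTW F j T₀) (Psi F j T₀) hprd hPsi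
    (wf_prd hLTW T₀) hcl hF hbd).1
  have hmem := mem_FF hLTW hPUN hj hT₀
  have hsym : ∀ s t, F.Cp j s t → F.Cp j t s := fun s t ⟨u, h1, h2, h3⟩ => ⟨u, h1, h3, h2⟩
  refine ⟨{x | x ∈ T₀ ∧ .nat 0 ∈ FF hLTW F j T₀ x}, ?_, fun x hx => hx.1, ?_, ?_⟩
  · refine SOM.of_SD (k := F.γ) (S := F.M) (S' := F.M) hb (fun x hx => hTb hx.1) ?_
    exact SD.and (SD.mem ST.id (SV.par hT₀M)) (SD.sub (P := fun e _ => e.snd ∈
      FF hLTW F j T₀ e.fst) hrec (ST.pr ST.id (ST.nat 0)))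
  · rintro s ⟨hs, hs'⟩ t ⟨ht, ht'⟩ hst
    rcases (hLTO O).2.2 s t with h1 | h1 | h1
    · exact absurd hst (((hmem t).1 ht').2 s hs h1 hs')
    · exact h1
    · exact absurd (hsym s t hst) (((hmem s).1 hs').2 t ht h1 ht')
  · intro t ht
    by_cases h1 : .nat 0 ∈ FF hLTW F j T₀ t
    · refine ⟨t, ⟨ht, h1⟩, t, hT₀ ht, ?_, ?_⟩ <;>
      · rw [(hPUN F).1]
        exact fun i _ => ⟨le_rfl, fun x _ r _ _ => Iff.rfl⟩
    · rw [hmem t] at h1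
      push Not at h1
      obtain ⟨x', h2, -, h3, h4⟩ := h1 ht
      exact ⟨x', ⟨h2, h3⟩, h4⟩

end Pool.Agent.Helper17.OD.PkANT
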