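import Pool.Agent.Helper17.OD.GoalsSO

/-!
# Packet REC: recursion over trees inside a second order structure
-/

namespace Pool.Agent.Helper17.OD.PkREC

open Set

variable {k : O} {S S' : Set (Set T)}

theorem SD_up [h : SOM k S S'] {P : T → (ℕ → Set T) → Prop} (hP : SD k S S' P) : SD k S S P := by
  obtain ⟨φ, e₀, τ, h0, h1, h2⟩ := hP
  exact ⟨φ, e₀, τ, h0, fun i => h.sub (h1 i), h2⟩

theorem kpos [h : SOM k S S'] : 0 < k := lt_of_le_of_lt bot_le h.omg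

theorem bdd_tree [h : SOM k S S'] : ∀ x ∈ D (Iio k), ∃ d < k, x ∈ D (Iio d) := by
  intro x
  induction x with
  | nat n => intro _; exact ⟨0, kpos (h := h), nat_mem _ _⟩
  | ord a =>
    intro hx
    have ha : a < k := ord_mem.1 hx
    exact ⟨Order.succ a, h.lim.succ_lt ha, ord_mem.2 (Order.lt_succ a)⟩
  | pr s t h1 h2 =>
    intro hx
    obtain ⟨a, ha, hs⟩ := h1 (pr_mem.1 hx).1
    obtain ⟨b, hb, ht⟩ := h2 (pr_mem.1 hx).2
    exact ⟨max a b, max_lt ha hb, pr_mem.2 ⟨D_mono (Iio_subset_Iio (le_max_left _ _)) hs,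
      D_mono (Iio_subset_Iio (le_max_right _ _)) ht⟩⟩

theorem D_in [h : SOM k S S'] {d : O} (hd : d < k) : D (Iio d) ∈ S' := by
  have := SOM.sep (k := k) (S := S) (S' := S') (P := fun _ => True) SD.const hd
  convert this using 1
  ext x
  simp

/-- Approximations. -/
def App (k : O) (S : Set (Set T)) (prd : T → Set T) (Φ : T → T → Set T → Prop)
    (A U : Set T) : Prop :=
  (∀ x ∈ D (Iio k), x ∈ A → ∀ z ∈ D (Iio k), z ∈ prd x → z ∈ A) ∧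
  ∀ x ∈ D (Iio k), x ∈ A → ∀ y ∈ D (Iio k), ∀ R ∈ S,
    (∀ p ∈ D (Iio k), (p ∈ R ↔ (p = .pr p.fst p.snd ∧ p.fst ∈ prd x ∧ p ∈ U))) →
      (Tr.pr x y ∈ U ↔ Φ x y R)

theorem App_SD [h : SOM k S S'] {prd : T → Set T} {Φ : T → T → Set T → Prop}
    (hprd : SD k S S' (fun e _ => e.fst ∈ prd e.snd))
    (hΦ : SD k S S' (fun e σ => Φ e.fst e.snd (σ 0))) :
    SD k S S' (fun _ σ => App k S prd Φ (σ 1) (σ 0)) := by
  have h1 : ∀ {s t : T → T}, ST k s → ST k t → SD k S S' (fun e _ => s e ∈ prd (t e)) :=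
    fun hs ht => SD.app2 (R := fun a b => a ∈ prd b) hprd hs ht
  have h2 : ∀ {s t : T → T} {θ : (ℕ → Set T) → Set T}, ST k s → ST k t → SV S' θ →
      SD k S S' (fun e σ => Φ (s e) (t e) (θ σ)) := fun {s t θ} hs ht hθ =>
    SD.appS1 (R := fun a X => Φ a.fst a.snd X) hΦ (hs.pr ht) hθ
  unfold App
  refine SD.and ?_ ?_
  · apply_rules (maxDepth := 500) [SD.exT, SD.allT, SD.exS, SD.allS, SD.isOrd, SD.llt,
      SD.mem, SD.eq, SD.not, SD.and, SD.or, SD.iff, SD.imp, ST.id, ST.fst, ST.snd, ST.pr, ST.nat,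
      ST.ordc, SV.var, SV.par, h1, h2]
  · apply_rules (maxDepth := 500) [SD.exT, SD.allT, SD.exS, SD.allS, SD.isOrd, SD.llt,
      SD.mem, SD.eq, SD.not, SD.and, SD.or, SD.iff, SD.imp, ST.id, ST.fst, ST.snd, ST.pr, ST.nat,
      ST.ordc, SV.var, SV.par, h1, h2]

/-- Graph of `F` on the predecessors. -/
def Gph (prd F : T → Set T) (x : T) : Set T :=
  {p | ∃ x' y' : T, p = .pr x' y' ∧ x' ∈ prd x ∧ y' ∈ F x'}

theorem pr_eta {p s t : T} (h : p = .pr s t) : p = .pr p.fst p.snd := by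
  subst h; rfl

theorem DIio {a b : O} (h : a ≤ b) : (D (Iio a) : Set T) ⊆ D (Iio b) := D_mono (Iio_subset_Iio h)

theorem prd_mem [h : SOM k S S'] {prd : T → Set T}
    (hcl : ∃ d₀ < k, ∀ d < k, d₀ ≤ d → ∀ x ∈ D (Iio d), prd x ⊆ D (Iio d))
    {x : T} (hx : x ∈ D (Iio k)) {z : T} (hz : z ∈ prd x) : z ∈ D (Iio k) := by
  obtain ⟨d₀, hd₀, hc⟩ := hcl
  obtain ⟨d, hd, hxd⟩ := bdd_tree (h := h) x hx
  exact DIio (max_lt hd hd₀).le (hc (max d d₀) (max_lt hd hd₀) (le_max_right _ _) x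
    (DIio (le_max_left _ _) hxd) hz)

/-- Approximations are correct. -/
theorem App_eq [h : SOM k S S'] {prd F : T → Set T} {Φ : T → T → Set T → Prop}
    (hprd : SD k S S' (fun e _ => e.fst ∈ prd e.snd))
    (hwf : WellFounded fun y x => y ∈ prd x)
    (hcl : ∃ d₀ < k, ∀ d < k, d₀ ≤ d → ∀ x ∈ D (Iio d), prd x ⊆ D (Iio d))
    (hF : ∀ x ∈ D (Iio k), ∀ y, y ∈ F x ↔ y ∈ D (Iio k) ∧ Φ x y (Gph prd F x))
    {A U : Set T} (hU : U ∈ S) (hApp : App k S prd Φ A U) :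
    ∀ x ∈ D (Iio k), x ∈ A → ∀ y ∈ D (Iio k), (Tr.pr x y ∈ U ↔ y ∈ F x) := by
  intro x
  induction x using hwf.induction with
  | _ x ih =>
  intro hx hxA y hy
  obtain ⟨d, hd, hUd⟩ := h.bdd U hU
  have := SOM.self (h := h)
  have hprd' : SD k S S (fun e _ => e.fst ∈ prd e.snd) := SD_up (h := h) hprd
  have h1 : ∀ {s t : T → T}, ST k s → ST k t → SD k S S (fun e _ => s e ∈ prd (t e)) :=
    fun hs ht => SD.app2 (R := fun a b => a ∈ prd b) hprd' hs ht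
  have hc : ST k (fun _ => x) := ST.const hx
  have hR : {p | p ∈ D (Iio d) ∧ (p = .pr p.fst p.snd ∧ p.fst ∈ prd x ∧ p ∈ U)} ∈ S := by
    refine SOM.sep (k := k) (S := S) (S' := S)
      (P := fun p => p = .pr p.fst p.snd ∧ p.fst ∈ prd x ∧ p ∈ U) ?_ hd
    exact SD.and (SD.eq ST.id (ST.pr (ST.fst ST.id) (ST.snd ST.id)))
      (SD.and (h1 (ST.fst ST.id) hc) (SD.mem ST.id (SV.par hU)))
  have hkey := hApp.2 x hx hxA y hy _ hR (fun p hp => by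
    constructor
    · rintro ⟨_, h2⟩; exact h2
    · intro h2; exact ⟨hUd h2.2.2, h2⟩)
  have hE : {p | p ∈ D (Iio d) ∧ (p = .pr p.fst p.snd ∧ p.fst ∈ prd x ∧ p ∈ U)}
      = Gph prd F x := by
    ext p
    constructor
    · rintro ⟨hpd, hp1, hp2, hp3⟩
      have hpk : p ∈ D (Iio k) := DIio hd.le hpd
      have hz := prd_mem (h := h) hcl hx hp2
      refine ⟨p.fst, p.snd, hp1, hp2, ?_⟩
      refine (ih p.fst hp2 hz (hApp.1 x hx hxA _ hz hp2) p.snd (snd_mem hpk)).1 ?_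
      rw [← hp1]; exact hp3
    · rintro ⟨x', y', rfl, hx', hy'⟩
      have hz := prd_mem (h := h) hcl hx hx'
      have hy'k := ((hF x' hz y').1 hy').1
      have hU' := (ih x' hx' hz (hApp.1 x hx hxA _ hz hx') y' hy'k).2 hy'
      exact ⟨hUd hU', rfl, hx', hU'⟩
  rw [hE] at hkey
  rw [hkey, hF x hx y]
  exact ⟨fun h2 => ⟨hy, h2⟩, fun h2 => h2.2⟩

/-- Approximations exist. -/
theorem App_ex [h : SOM k S S'] {prd F : T → Set T} {Φ : T → T → Set T → Prop}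
    (hprd : SD k S S' (fun e _ => e.fst ∈ prd e.snd))
    (hΦ : SD k S S' (fun e σ => Φ e.fst e.snd (σ 0)))
    (hwf : WellFounded fun y x => y ∈ prd x)
    (hcl : ∃ d₀ < k, ∀ d < k, d₀ ≤ d → ∀ x ∈ D (Iio d), prd x ⊆ D (Iio d))
    (hF : ∀ x ∈ D (Iio k), ∀ y, y ∈ F x ↔ y ∈ D (Iio k) ∧ Φ x y (Gph prd F x))
    (hbd : ∀ d < k, ∃ b < k, ∀ x ∈ D (Iio d), F x ⊆ D (Iio b))
    {d : O} (hd : d < k) (hcd : ∀ x ∈ D (Iio d), prd x ⊆ D (Iio d)) :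
    ∀ x ∈ D (Iio d), ∃ A ∈ S, ∃ U ∈ S, App k S prd Φ A U ∧ x ∈ A := by
  intro x
  induction x using hwf.induction with
  | _ x ih =>
  intro hx
  have hxk : x ∈ D (Iio k) := DIio hd.le hx
  obtain ⟨b, hb, hFb⟩ := hbd d hd
  have hmk : max d b < k := max_lt hd hb
  have hS := SOM.self (h := h)
  have hprd' : SD k S S (fun e _ => e.fst ∈ prd e.snd) := SD_up (h := h) hprd
  have hΦ' : SD k S S (fun e σ => Φ e.fst e.snd (σ 0)) := SD_up (h := h) hΦ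
  have h1 : ∀ {s t : T → T}, ST k s → ST k t → SD k S S (fun e _ => s e ∈ prd (t e)) :=
    fun hs ht => SD.app2 (R := fun a b => a ∈ prd b) hprd' hs ht
  have h2 : ∀ {s t : T → T} {θ : (ℕ → Set T) → Set T}, ST k s → ST k t → SV S θ →
      SD k S S (fun e σ => Φ (s e) (t e) (θ σ)) := fun {s t θ} hs ht hθ =>
    SD.appS1 (R := fun a X => Φ a.fst a.snd X) hΦ' (hs.pr ht) hθ
  have h3 : SD k S S (fun _ σ => App k S prd Φ (σ 1) (σ 0)) := App_SD hprd' hΦ'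
  have hc : ST k (fun _ => x) := ST.const hxk
  -- some approximation contains `z`
  have hNz : SD k S S (fun e _ => ∃ A' ∈ S, ∃ U' ∈ S, App k S prd Φ A' U' ∧ e ∈ A') := by
    refine SD.exS (P := fun e A' _ => ∃ U' ∈ S, App k S prd Φ A' U' ∧ e ∈ A') ?_
    refine SD.exS (P := fun e U' σ => App k S prd Φ (σ 0) U' ∧ e ∈ σ 0) ?_
    exact SD.and h3 (SD.mem ST.id (SV.var 1))
  have hNp : SD k S S (fun e _ => ∃ A' ∈ S, ∃ U' ∈ S, App k S prd Φ A' U' ∧ e.fst ∈ A' ∧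
      e ∈ U') := by
    refine SD.exS (P := fun e A' _ => ∃ U' ∈ S, App k S prd Φ A' U' ∧ e.fst ∈ A' ∧ e ∈ U') ?_
    refine SD.exS (P := fun e U' σ => App k S prd Φ (σ 0) U' ∧ e.fst ∈ σ 0 ∧ e ∈ U') ?_
    exact SD.and h3 (SD.and (SD.mem (ST.fst ST.id) (SV.var 1)) (SD.mem ST.id (SV.var 0)))
  have hpe : SD k S S (fun e _ => e = .pr e.fst e.snd) :=
    SD.eq ST.id (ST.pr (ST.fst ST.id) (ST.snd ST.id))
  -- the graph of `F` on `prd x`
  have hG : Gph prd F x ∈ S := by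
    have h4 : {p | p ∈ D (Iio (max d b)) ∧ (p = .pr p.fst p.snd ∧ p.fst ∈ prd x ∧
        ∃ A' ∈ S, ∃ U' ∈ S, App k S prd Φ A' U' ∧ p.fst ∈ A' ∧ p ∈ U')} ∈ S := by
      refine SOM.sep (k := k) (S := S) (S' := S) (P := fun p => p = .pr p.fst p.snd ∧
        p.fst ∈ prd x ∧ ∃ A' ∈ S, ∃ U' ∈ S, App k S prd Φ A' U' ∧ p.fst ∈ A' ∧ p ∈ U') ?_ hmk
      exact SD.and hpe (SD.and (h1 (ST.fst ST.id) hc) hNp)
    convert h4 using 1
    ext p
    constructor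
    · rintro ⟨x', y', rfl, hx', hy'⟩
      have hx'd : x' ∈ D (Iio d) := hcd x hx hx'
      have hx'k : x' ∈ D (Iio k) := DIio hd.le hx'd
      have hy'b : y' ∈ D (Iio b) := hFb x' hx'd hy'
      have hy'k : y' ∈ D (Iio k) := DIio hb.le hy'b
      obtain ⟨A', hA', U', hU', hApp, hxA⟩ := ih x' hx' hx'd
      exact ⟨pr_mem.2 ⟨DIio (le_max_left _ _) hx'd, DIio (le_max_right _ _) hy'b⟩, rfl, hx',
        A', hA', U', hU', hApp, hxA,
        (App_eq hprd hwf hcl hF hU' hApp x' hx'k hxA y' hy'k).2 hy'⟩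
    · rintro ⟨hpd, hp1, hp2, A', hA', U', hU', hApp, hpA, hpU⟩
      have hpk : p ∈ D (Iio k) := DIio hmk.le hpd
      refine ⟨p.fst, p.snd, hp1, hp2, ?_⟩
      refine (App_eq hprd hwf hcl hF hU' hApp p.fst (fst_mem hpk) hpA p.snd (snd_mem hpk)).1 ?_
      rw [← hp1]; exact hpU
  let A : Set T := {z | z ∈ D (Iio d) ∧ (z = x ∨ ∃ A' ∈ S, ∃ U' ∈ S, App k S prd Φ A' U' ∧ z ∈ A')}
  have hA : A ∈ S := by
    refine SOM.sep (k := k) (S := S) (S' := S) (P := fun z => z = x ∨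
      ∃ A' ∈ S, ∃ U' ∈ S, App k S prd Φ A' U' ∧ z ∈ A') ?_ hd
    exact SD.or (SD.eq ST.id hc) hNz
  have hAcl : ∀ z ∈ A, ∀ w ∈ prd z, w ∈ A := by
    rintro z ⟨hzd, hz⟩ w hw
    have hwd : w ∈ D (Iio d) := hcd z hzd hw
    refine ⟨hwd, Or.inr ?_⟩
    rcases hz with rfl | ⟨A', hA', U', hU', hApp, hzA⟩
    · exact ih w hw hwd
    · exact ⟨A', hA', U', hU', hApp, hApp.1 z (DIio hd.le hzd) hzA w (DIio hd.le hwd) hw⟩
  let U : Set T := {p | ∃ z y : T, p = .pr z y ∧ z ∈ A ∧ y ∈ F z}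
  have hUd : U ⊆ D (Iio (max d b)) := by
    rintro p ⟨z, y, rfl, hz, hy⟩
    exact pr_mem.2 ⟨DIio (le_max_left _ _) hz.1, DIio (le_max_right _ _) (hFb z hz.1 hy)⟩
  have hU : U ∈ S := by
    refine SOM.of_SD (k := k) (S := S) (S' := S) hmk hUd ?_
    have h5 : SD k S S (fun p _ => p = .pr p.fst p.snd ∧ p.fst ∈ A ∧
        ((∃ A' ∈ S, ∃ U' ∈ S, App k S prd Φ A' U' ∧ p.fst ∈ A' ∧ p ∈ U') ∨
          (p.fst = x ∧ Φ x p.snd (Gph prd F x)))) :=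
      SD.and hpe (SD.and (SD.mem (ST.fst ST.id) (SV.par hA)) (SD.or hNp
        (SD.and (SD.eq (ST.fst ST.id) hc) (h2 hc (ST.snd ST.id) (SV.par hG)))))
    refine h5.congr fun p hp σ hσ => ?_
    constructor
    · rintro ⟨hp1, hp2, hp3⟩
      refine ⟨p.fst, p.snd, hp1, hp2, ?_⟩
      rcases hp3 with ⟨A', hA', U', hU', hApp, hpA, hpU⟩ | ⟨hp4, hp5⟩
      · refine (App_eq hprd hwf hcl hF hU' hApp p.fst (fst_mem hp) hpA p.snd (snd_mem hp)).1 ?_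
        rw [← hp1]; exact hpU
      · rw [hp4]
        exact (hF x hxk p.snd).2 ⟨snd_mem hp, hp5⟩
    · rintro ⟨z, y, rfl, hz, hy⟩
      refine ⟨rfl, hz, ?_⟩
      have hzk : z ∈ D (Iio k) := DIio hd.le hz.1
      have hyk : y ∈ D (Iio k) := (pr_mem.1 hp).2
      rcases hz.2 with rfl | ⟨A', hA', U', hU', hApp, hzA⟩
      · exact Or.inr ⟨rfl, ((hF z hzk y).1 hy).2⟩
      · exact Or.inl ⟨A', hA', U', hU', hApp, hzA,
          (App_eq hprd hwf hcl hF hU' hApp z hzk hzA y hyk).2 hy⟩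
  refine ⟨A, hA, U, hU, ⟨fun z hz hzA w hw hwz => hAcl z hzA w hwz, ?_⟩, hx, Or.inl rfl⟩
  intro x₁ hx₁ hx₁A y hy R hR hRU
  have hRG : R = Gph prd F x₁ := by
    obtain ⟨r, hr, hRr⟩ := h.bdd R hR
    ext p
    constructor
    · intro hp
      obtain ⟨hp1, hp2, z, w, hp3, hz, hw⟩ := (hRU p (DIio hr.le (hRr hp))).1 hp
      subst hp3
      exact ⟨z, w, rfl, hp2, hw⟩
    · rintro ⟨x', y', rfl, hx', hy'⟩
      have hx'A := hAcl x₁ hx₁A x' hx'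
      have hpU : Tr.pr x' y' ∈ U := ⟨x', y', rfl, hx'A, hy'⟩
      exact (hRU _ (DIio hmk.le (hUd hpU))).2 ⟨rfl, hx', hpU⟩
  rw [hRG]
  constructor
  · rintro ⟨z, w, hzw, hz, hw⟩
    injection hzw with h6 h7
    subst h6 h7
    exact ((hF _ hx₁ _).1 hw).2
  · intro h6
    exact ⟨x₁, y, rfl, hx₁A, (hF x₁ hx₁ y).2 ⟨hy, h6⟩⟩

theorem thm : G_REC := by
  intro k S S' h prd F Φ hprd hΦ hwf hcl hF hbd
  have := h
  have hF' : ∀ x ∈ D (Iio k), ∀ y, y ∈ F x ↔ y ∈ D (Iio k) ∧ Φ x y (Gph prd F x) := hF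
  have hSD : SD k S S' (fun e _ => e.snd ∈ F e.fst) := by
    have h1 : SD k S S' (fun e _ => ∃ A ∈ S, ∃ U ∈ S, App k S prd Φ A U ∧ e.fst ∈ A ∧
        Tr.pr e.fst e.snd ∈ U) := by
      refine SD.exS (P := fun e A _ => ∃ U ∈ S, App k S prd Φ A U ∧ e.fst ∈ A ∧
        Tr.pr e.fst e.snd ∈ U) ?_
      refine SD.exS (P := fun e U σ => App k S prd Φ (σ 0) U ∧ e.fst ∈ σ 0 ∧
        Tr.pr e.fst e.snd ∈ U) ?_
      exact SD.and (App_SD hprd hΦ) (SD.and (SD.mem (ST.fst ST.id) (SV.var 1))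
        (SD.mem (ST.pr (ST.fst ST.id) (ST.snd ST.id)) (SV.var 0)))
    refine h1.congr fun e he σ hσ => ?_
    constructor
    · rintro ⟨A, hA, U, hU, hApp, h2, h3⟩
      exact (App_eq hprd hwf hcl hF' hU hApp e.fst (fst_mem he) h2 e.snd (snd_mem he)).1 h3
    · intro h2
      obtain ⟨d₀, hd₀, hc⟩ := hcl
      obtain ⟨d, hd, hed⟩ := bdd_tree (h := h) e.fst (fst_mem he)
      have hm : max d d₀ < k := max_lt hd hd₀
      obtain ⟨A, hA, U, hU, hApp, h3⟩ := App_ex hprd hΦ hwf ⟨d₀, hd₀, hc⟩ hF' hbd hm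
        (hc _ hm (le_max_right _ _)) e.fst (DIio (le_max_left _ _) hed)
      exact ⟨A, hA, U, hU, hApp, h3,
        (App_eq hprd hwf ⟨d₀, hd₀, hc⟩ hF' hU hApp e.fst (fst_mem he) h3 e.snd (snd_mem he)).2 h2⟩
  refine ⟨hSD, fun d hd => ?_⟩
  obtain ⟨b, hb, hFb⟩ := hbd d hd
  have hmk : max d b < k := max_lt hd hb
  refine SOM.of_SD (k := k) (S := S) (S' := S') hmk ?_ ?_
  · rintro p ⟨x, hx, y, hy, rfl⟩
    exact pr_mem.2 ⟨DIio (le_max_left _ _) hx, DIio (le_max_right _ _) (hFb x hx hy)⟩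
  · have h5 : SD k S S' (fun p _ => p = .pr p.fst p.snd ∧ p.fst ∈ D (Iio d) ∧ p.snd ∈ F p.fst) :=
      SD.and (SD.eq ST.id (ST.pr (ST.fst ST.id) (ST.snd ST.id)))
        (SD.and (SD.mem (ST.fst ST.id) (SV.par (D_in (h := h) hd))) hSD)
    refine h5.congr fun p hp σ hσ => ?_
    constructor
    · rintro ⟨h1, h2, h3⟩
      exact ⟨p.fst, h2, p.snd, h3, h1⟩
    · rintro ⟨x, hx, y, hy, rfl⟩
      exact ⟨rfl, hx, hy⟩

end Pool.Agent.Helper17.OD.PkREC
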