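import Pool.Agent.Helper17.OD.GoalsFP

/-!
# Packet TRC: transfinite recursion with least choices
-/

namespace Pool.Agent.Helper17.OD.PkTRC

open Set

variable {k : O} {S S' : Set (Set T)}

/-- Predecessors. -/
def prd (x : T) : Set T := {z | z.IsOrd ∧ x.IsOrd ∧ z.llt x}

theorem isOrd_iff {z : T} : z.IsOrd ↔ ∃ a : O, z = .ord a := by
  cases z <;> simp [Tr.IsOrd]

theorem mem_prd {z x : T} : z ∈ prd x ↔ ∃ a b : O, z = .ord a ∧ x = .ord b ∧ a < b := by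
  constructor
  · rintro ⟨h1, h2, h3⟩
    obtain ⟨a, rfl⟩ := isOrd_iff.1 h1
    obtain ⟨b, rfl⟩ := isOrd_iff.1 h2
    exact ⟨a, b, rfl, rfl, h3⟩
  · rintro ⟨a, b, rfl, rfl, h⟩
    exact ⟨trivial, trivial, h⟩

/-- Rank. -/
noncomputable def rk : T → O
  | .ord a => a
  | _ => 0

theorem wf_prd : WellFounded fun y x : T => y ∈ prd x := by
  refine Subrelation.wf (r := InvImage (· < ·) rk) ?_ (InvImage.wf _ wellFounded_lt)
  intro y x h
  obtain ⟨a, b, rfl, rfl, hab⟩ := mem_prd.1 h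
  exact hab

/-- Least choice. -/
def Psi (k : O) (Φ : T → T → Set T → Prop) (A : Set T) (x v : T) (G : Set T) : Prop :=
  x.IsOrd ∧ v ∈ A ∧ Φ x v G ∧ ∀ v' ∈ D (Iio k), v' ∈ A → Φ x v' G → ¬ v'.lt v

/-- The values. -/
noncomputable def FF (k : O) (Φ : T → T → Set T → Prop) (A : Set T) : T → Set T :=
  wf_prd.fix (C := fun _ => Set T) (fun x ih => {v | v ∈ D (Iio k) ∧
    Psi k Φ A x v {p | ∃ x' y' : T, p = .pr x' y' ∧ ∃ h : x' ∈ prd x, y' ∈ ih x' h}})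

theorem FF_eq (k : O) (Φ : T → T → Set T → Prop) (A : Set T) (x : T) :
    FF k Φ A x = {v | v ∈ D (Iio k) ∧
      Psi k Φ A x v {p | ∃ x' y' : T, p = .pr x' y' ∧ x' ∈ prd x ∧ y' ∈ FF k Φ A x'}} := by
  unfold FF
  rw [WellFounded.fix_eq]
  simp only [exists_prop]

open Classical in
/-- The function. -/
noncomputable def qq (k : O) (Φ : T → T → Set T → Prop) (A : Set T) (x : O) : T :=
  if h : (FF k Φ A (.ord x)).Nonempty then h.some else .nat 0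

theorem qq_mem {Φ : T → T → Set T → Prop} {A : Set T} {x : O}
    (h : (FF k Φ A (.ord x)).Nonempty) : qq k Φ A x ∈ FF k Φ A (.ord x) := by
  unfold qq
  rw [dif_pos h]
  exact h.some_mem

theorem Psi_unique (hLTO : G_LTO.{2}) {Φ : T → T → Set T → Prop} {A G : Set T} {x v v' : T}
    (hv : v ∈ D (Iio k)) (hv' : v' ∈ D (Iio k))
    (h : Psi k Φ A x v G) (h' : Psi k Φ A x v' G) : v = v' := by
  rcases (hLTO O).2.2 v v' with h1 | h1 | h1
  · exact absurd h1 (h'.2.2.2 v hv h.2.1 h.2.2.1)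
  · exact h1
  · exact absurd h1 (h.2.2.2 v' hv' h'.2.1 h'.2.2.1)

theorem FF_unique (hLTO : G_LTO.{2}) {Φ : T → T → Set T → Prop} {A : Set T} {x v v' : T}
    (h : v ∈ FF k Φ A x) (h' : v' ∈ FF k Φ A x) : v = v' := by
  rw [FF_eq] at h h'
  exact Psi_unique hLTO h.1 h'.1 h.2 h'.2

theorem FF_ord {Φ : T → T → Set T → Prop} {A : Set T} {x v : T}
    (h : v ∈ FF k Φ A x) : ∃ a : O, x = .ord a := by
  rw [FF_eq] at h
  exact isOrd_iff.1 h.2.1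

theorem gr_eq (hLTO : G_LTO.{2}) {Φ : T → T → Set T → Prop} {A : Set T} {x : O}
    (hx : ∀ y < x, (FF k Φ A (.ord y)).Nonempty) :
    {p | ∃ x' y' : T, p = .pr x' y' ∧ x' ∈ prd (.ord x) ∧ y' ∈ FF k Φ A x'} =
      grt x (qq k Φ A) := by
  ext p
  constructor
  · rintro ⟨x', y', rfl, h1, h2⟩
    obtain ⟨a, b, rfl, hb, hab⟩ := mem_prd.1 h1
    injection hb with hb
    subst hb
    exact ⟨a, hab, by rw [FF_unique hLTO h2 (qq_mem (hx a hab))]⟩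
  · rintro ⟨a, ha, rfl⟩
    exact ⟨.ord a, qq k Φ A a, rfl, mem_prd.2 ⟨a, x, rfl, rfl, ha⟩, qq_mem (hx a ha)⟩

theorem gr_eq' (hLTO : G_LTO.{2}) {Φ : T → T → Set T → Prop} {A : Set T} {x : O}
    (hx : ∀ y < x, (FF k Φ A (.ord y)).Nonempty) :
    {p : T | ∃ z ∈ D (Iio x), ∃ y ∈ FF k Φ A z, p = .pr z y} = grt x (qq k Φ A) := by
  ext p
  constructor
  · rintro ⟨z, h1, y', h2, rfl⟩
    obtain ⟨a, rfl⟩ := FF_ord h2
    have ha : a < x := ord_mem.1 h1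
    exact ⟨a, ha, by rw [FF_unique hLTO h2 (qq_mem (hx a ha))]⟩
  · rintro ⟨a, ha, rfl⟩
    exact ⟨.ord a, ord_mem.2 ha, qq k Φ A a, qq_mem (hx a ha), rfl⟩

theorem thm (hREC : G_REC) (hTRE : G_TRE) (hLTO : G_LTO.{2}) (hLTW : G_LTW.{2}) : G_TRC := by
  intro k S S' h l hl Φ A hA hΦ hstep
  have := h
  obtain ⟨b, hb, hAb⟩ := h.bdd A (h.sub hA)
  have hAk : ∀ v ∈ A, v ∈ D (Iio k) := fun v hv => D_mono (Iio_subset_Iio hb.le) (hAb hv)
  have hlt : SD k S S' (fun e _ => e.fst.lt e.snd) := (hTRE k S S' h).2.1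
  have h1 : ∀ {s t : T → T}, ST k s → ST k t → SD k S S' (fun e _ => (s e).lt (t e)) :=
    fun hs ht => SD.app2 (R := fun a b => a.lt b) hlt hs ht
  have h2 : ∀ {s t : T → T} {θ : (ℕ → Set T) → Set T}, ST k s → ST k t → SV S' θ →
      SD k S S' (fun e σ => Φ (s e) (t e) (θ σ)) := fun {s t θ} hs ht hθ =>
    SD.appS1 (R := fun a X => Φ a.fst a.snd X) hΦ (hs.pr ht) hθ
  have hPsi : SD k S S' (fun e σ => Psi k Φ A e.fst e.snd (σ 0)) := by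
    unfold Psi
    refine SD.and (SD.isOrd (ST.fst ST.id)) (SD.and (SD.mem (ST.snd ST.id) (SV.par hA))
      (SD.and (h2 (ST.fst ST.id) (ST.snd ST.id) (SV.var 0)) ?_))
    refine SD.allT (P := fun e v' σ => v' ∈ A → Φ e.fst v' (σ 0) → ¬ v'.lt e.snd) ?_
    exact SD.imp (SD.mem (ST.fst ST.id) (SV.par hA)) (SD.imp
      (h2 (ST.fst (ST.snd ST.id)) (ST.fst ST.id) (SV.var 0))
      (SD.not (h1 (ST.fst ST.id) (ST.snd (ST.snd ST.id)))))
  have hprd : SD k S S' (fun e _ => e.fst ∈ prd e.snd) :=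
    SD.and (SD.isOrd (ST.fst ST.id)) (SD.and (SD.isOrd (ST.snd ST.id))
      (SD.llt (ST.fst ST.id) (ST.snd ST.id)))
  have hcl : ∃ d₀ < k, ∀ d < k, d₀ ≤ d → ∀ x ∈ D (Iio d), prd x ⊆ D (Iio d) := by
    refine ⟨0, lt_of_le_of_lt bot_le h.omg, fun d _ _ x hx z hz => ?_⟩
    obtain ⟨a, b, rfl, rfl, hab⟩ := mem_prd.1 hz
    exact ord_mem.2 (lt_trans hab (ord_mem.1 hx))
  have hF : ∀ x ∈ D (Iio k), ∀ y, y ∈ FF k Φ A x ↔ y ∈ D (Iio k) ∧
      Psi k Φ A x y {p | ∃ x' y' : T, p = .pr x' y' ∧ x' ∈ prd x ∧ y' ∈ FF k Φ A x'} := by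
    intro x _ y
    rw [FF_eq]
    rfl
  have hbd : ∀ d < k, ∃ b < k, ∀ x ∈ D (Iio d), FF k Φ A x ⊆ D (Iio b) := by
    intro d _
    refine ⟨b, hb, fun x _ y hy => ?_⟩
    rw [FF_eq] at hy
    exact hAb hy.2.2.1
  have hrec := (hREC k S S' h prd (FF k Φ A) (Psi k Φ A) hprd hPsi wf_prd hcl hF hbd).2
  have hne : ∀ x < l, (FF k Φ A (.ord x)).Nonempty := by
    intro x
    induction x using WellFoundedLT.induction with
    | _ x ih =>
    intro hx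
    have ih' : ∀ y < x, (FF k Φ A (.ord y)).Nonempty := fun y hy => ih y hy (hy.trans hx)
    have hgr : grt x (qq k Φ A) ∈ S' := by
      rw [← gr_eq' hLTO ih']
      exact hrec x (hx.trans hl)
    obtain ⟨v, hv, hΦv⟩ := hstep x hx (qq k Φ A) hgr (fun y hy => by
      have h3 := qq_mem (ih' y hy)
      rw [FF_eq] at h3
      rw [gr_eq hLTO (fun z hz => ih' z (hz.trans hy))] at h3
      exact ⟨h3.2.2.1, h3.2.2.2.1⟩)
    let Y : Set T := {v | v ∈ A ∧ Φ (.ord x) v (grt x (qq k Φ A))}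
    have hY : Y.Nonempty := ⟨v, hv, hΦv⟩
    obtain ⟨m, hm, hmin⟩ := (hLTW O).has_min Y hY
    refine ⟨m, ?_⟩
    rw [FF_eq, gr_eq hLTO ih']
    exact ⟨hAk m hm.1, trivial, hm.1, hm.2, fun v' _ hv' hΦ' => hmin v' ⟨hv', hΦ'⟩⟩
  refine ⟨qq k Φ A, ?_, fun x hx => ?_⟩
  · rw [← gr_eq' hLTO hne]
    exact hrec l hl
  · have h3 := qq_mem (hne x hx)
    rw [FF_eq, gr_eq hLTO (fun z hz => hne z (hz.trans hx))] at h3
    exact ⟨h3.2.2.1, h3.2.2.2.1⟩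

end Pool.Agent.Helper17.OD.PkTRC
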