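import Pool.Agent.Helper17.OD.GoalsFP

/-!
# Packet EIM: the isomorphism is in the ground model
-/

namespace Pool.Agent.Helper17.OD.PkEIM

open Set

theorem isOrd_iff {z : T} : z.IsOrd ↔ ∃ a : O, z = .ord a := by
  cases z <;> simp [Tr.IsOrd]

/-- Predecessors. -/
def prd (F : FD) (x : T) : Set T := {z | z = .pr z.fst z.snd ∧ z.fst.IsOrd ∧ x.fst.IsOrd ∧
  z.fst.llt x.fst ∧ z.snd ∈ D (Iio F.κ)}

theorem mem_prd {F : FD} {z x : T} : z ∈ prd F x ↔ ∃ (i j : O) (v : T), z = .pr (.ord i) v ∧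
    x.fst = .ord j ∧ i < j ∧ v ∈ D (Iio F.κ) := by
  constructor
  · rintro ⟨h1, h2, h3, h4, h5⟩
    obtain ⟨a, ha⟩ := isOrd_iff.1 h2
    obtain ⟨b, hb⟩ := isOrd_iff.1 h3
    rw [ha, hb] at h4
    rw [ha] at h1
    exact ⟨a, b, z.snd, h1, hb, h4, h5⟩
  · rintro ⟨i, j, v, rfl, h2, h3, h4⟩
    exact ⟨rfl, trivial, by rw [h2]; trivial, by rw [h2]; exact h3, h4⟩

/-- Rank. -/
noncomputable def rk (x : T) : O := match x.fst with
  | .ord a => a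
  | _ => 0

theorem wf_prd (F : FD) : WellFounded fun y x : T => y ∈ prd F x := by
  refine Subrelation.wf (r := InvImage (· < ·) rk) ?_ (InvImage.wf _ wellFounded_lt)
  intro y x h
  obtain ⟨i, j, v, rfl, h2, h3, -⟩ := mem_prd.1 h
  change rk _ < rk _
  have e1 : rk (.pr (.ord i) v) = i := rfl
  have e2 : rk x = j := by simp [rk, h2]
  rw [e1, e2]
  exact h3

/-- Conditions of length `ti`. -/
def PP (F : FD) (ti s : T) : Prop := ∃ j ≤ F.κ, ti = .ord j ∧ s ∈ F.P j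

/-- The order at length `ti`. -/
def LL (F : FD) (ti s t : T) : Prop := ∃ j ≤ F.κ, ti = .ord j ∧ s ∈ D (Iio F.κ) ∧
  t ∈ D (Iio F.κ) ∧ F.Le j s t

theorem PP_iff {F : FD} {i : O} (hi : i ≤ F.κ) {s : T} : PP F (.ord i) s ↔ s ∈ F.P i := by
  constructor
  · rintro ⟨j, _, h1, h2⟩
    injection h1 with h1
    subst h1
    exact h2
  · intro h
    exact ⟨i, hi, rfl, h⟩

theorem LL_iff {F : FD} {i : O} (hi : i ≤ F.κ) {s t : T} (hs : s ∈ D (Iio F.κ))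
    (ht : t ∈ D (Iio F.κ)) : LL F (.ord i) s t ↔ F.Le i s t := by
  constructor
  · rintro ⟨j, _, h1, _, _, h2⟩
    injection h1 with h1
    subst h1
    exact h2
  · intro h
    exact ⟨i, hi, rfl, hs, ht, h⟩

/-- Canonical code of the section of `G`. -/
def CS (F : FD) (ti v c : T) (G : Set T) : Prop :=
  Canon c ∧ ∀ z ∈ D (Iio F.γ), (z ∈ dec c ↔ Tr.pr (.pr ti v) z ∈ G)

/-- Internal version of `TrN`. -/
def TT (F : FD) (p' r ti tx s : T) (G : Set T) : Prop :=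
  PP F ti s ∧ ∀ s' ∈ D (Iio F.γ), PP F ti s' → LL F ti s' s → ∃ s'' ∈ D (Iio F.γ),
    PP F ti s'' ∧ LL F ti s'' s' ∧ ∃ v ∈ D (Iio F.γ),
      Tr.pr ti (.pr (.nat 1) (.pr tx v)) ∈ dec r ∧ PP F ti v ∧ LL F ti v p' ∧
      ∃ c ∈ D (Iio F.γ), CS F ti v c G ∧ LL F ti s'' c

/-- Internal version of `EiS`. -/
def Psi (F : FD) (p' q' : T) (x z : T) (G : Set T) : Prop :=
  z ∈ D (Iio F.κ) ∧ x.fst.IsOrd ∧ ∃ ti ∈ D (Iio F.γ), ti.IsOrd ∧ ti.llt x.fst ∧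
    ti.llt (.ord F.κ) ∧ ∃ tx ∈ D (Iio F.γ), LnT x.snd ti tx ∧
      (z = .pr ti (.pr (.nat 0) tx) ∨ ∃ s ∈ D (Iio F.γ), z = .pr ti (.pr (.nat 1) (.pr tx s)) ∧
        ((LnT q' ti tx ∧ Tr.pr ti (.pr (.nat 1) (.pr tx s)) ∈ dec q') ∨
          (¬ LnT q' ti tx ∧ TT F p' x.snd ti tx s G)))

/-- The values. -/
noncomputable def FF (F : FD) (p' q' : T) : T → Set T :=
  (wf_prd F).fix (C := fun _ => Set T) (fun x ih => {v | v ∈ D (Iio F.γ) ∧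
    Psi F p' q' x v {p | ∃ x' y' : T, p = .pr x' y' ∧ ∃ h : x' ∈ prd F x, y' ∈ ih x' h}})

/-- Graph on the predecessors. -/
def Gph (F : FD) (p' q' : T) (x : T) : Set T :=
  {p | ∃ x' y' : T, p = .pr x' y' ∧ x' ∈ prd F x ∧ y' ∈ FF F p' q' x'}

theorem FF_eq (F : FD) (p' q' : T) (x : T) :
    FF F p' q' x = {v | v ∈ D (Iio F.γ) ∧ Psi F p' q' x v (Gph F p' q' x)} := by
  unfold Gph FF
  rw [WellFounded.fix_eq]
  simp only [exists_prop]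

theorem sd_rules (hPIM : G_PIM) (hLNS : G_LNS) (hDEC : G_DEC) (hCNC : G_CNC) (F : FD) :
    (∀ {s t : T → T}, ST F.γ s → ST F.γ t → SD F.γ F.M F.M (fun e _ => PP F (s e) (t e))) ∧
    (∀ {s t u : T → T}, ST F.γ s → ST F.γ t → ST F.γ u →
      SD F.γ F.M F.M (fun e _ => LL F (s e) (t e) (u e))) ∧
    (∀ {s t : T → T}, ST F.γ s → ST F.γ t → SD F.γ F.M F.M (fun e _ => s e ∈ dec (t e))) ∧
    (∀ {s : T → T}, ST F.γ s → SD F.γ F.M F.M (fun e _ => Canon (s e))) ∧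
    (∀ {s t u : T → T}, ST F.γ s → ST F.γ t → ST F.γ u →
      SD F.γ F.M F.M (fun e _ => LnT (s e) (t e) (u e))) := by
  have h : SOM F.γ F.M F.M := F.g.m1
  refine ⟨fun {s t} hs ht => ?_, fun {s t u} hs ht hu => ?_, fun {s t} hs ht => ?_,
    fun {s} hs => ?_, fun {s t u} hs ht hu => ?_⟩
  · exact SD.sub (hPIM F).1 (hs.pr ht)
  · exact SD.sub (hPIM F).2.1 (hs.pr (ht.pr hu))
  · exact SD.sub (hDEC F.γ F.M F.M h).1 (hs.pr ht)
  · exact SD.sub (hCNC.2.2.2.2.2.2 F.γ F.M F.M h).1 hs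
  · exact SD.sub (hLNS F.γ F.M F.M h) (hs.pr (ht.pr hu))

theorem D_in {F : FD} {d : O} (hd : d < F.γ) : D (Iio d) ∈ F.M := by
  have h : SOM F.γ F.M F.M := F.g.m1
  have := SOM.sep (k := F.γ) (S := F.M) (S' := F.M) (P := fun _ => True) SD.const hd
  convert this using 1
  ext x
  simp

theorem CS_SD (hPIM : G_PIM) (hLNS : G_LNS) (hDEC : G_DEC) (hCNC : G_CNC) (F : FD)
    {s t u : T → T} {θ : (ℕ → Set T) → Set T} (hs : ST F.γ s) (ht : ST F.γ t) (hu : ST F.γ u)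
    (hθ : SV F.M θ) : SD F.γ F.M F.M (fun e σ => CS F (s e) (t e) (u e) (θ σ)) := by
  obtain ⟨hPP, hLL, hdec, hCan, hLn⟩ := sd_rules hPIM hLNS hDEC hCNC F
  have h : SOM F.γ F.M F.M := F.g.m1
  unfold CS
  refine SD.and (hCan hu) ?_
  refine SD.allT (P := fun e z σ => (z ∈ dec (u e) ↔ Tr.pr (.pr (s e) (t e)) z ∈ θ σ)) ?_
  exact SD.iff (hdec (ST.fst ST.id) (ST.comp hu (ST.snd ST.id)))
    (SD.mem (ST.pr (ST.pr (ST.comp hs (ST.snd ST.id)) (ST.comp ht (ST.snd ST.id)))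
      (ST.fst ST.id)) hθ)

theorem Psi_SD (hPIM : G_PIM) (hLNS : G_LNS) (hDEC : G_DEC) (hCNC : G_CNC) (F : FD)
    {p' q' : T} (hp : p' ∈ D (Iio F.γ)) (hq : q' ∈ D (Iio F.γ)) :
    SD F.γ F.M F.M (fun e σ => Psi F p' q' e.fst e.snd (σ 0)) := by
  obtain ⟨hPP, hLL, hdec, hCan, hLn⟩ := sd_rules hPIM hLNS hDEC hCNC F
  have h : SOM F.γ F.M F.M := F.g.m1
  have hp' : ST F.γ (fun _ => p') := ST.const hp
  have hq' : ST F.γ (fun _ => q') := ST.const hq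
  have hk : ST F.γ (fun _ => .ord F.κ) := ST.ordc F.g.kg
  have hD : D (Iio F.κ) ∈ F.M := D_in F.g.kg
  have hCS : ∀ {s t u : T → T} {θ : (ℕ → Set T) → Set T}, ST F.γ s → ST F.γ t → ST F.γ u →
    SV F.M θ → SD F.γ F.M F.M (fun e σ => CS F (s e) (t e) (u e) (θ σ)) :=
    fun hs ht hu hθ => CS_SD hPIM hLNS hDEC hCNC F hs ht hu hθ
  unfold Psi TT
  apply_rules (maxDepth := 2000) [SD.exT, SD.allT, SD.exS, SD.allS, SD.isOrd, SD.llt,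
    SD.mem, SD.eq, SD.not, SD.and, SD.or, SD.iff, SD.imp, ST.id, ST.fst, ST.snd, ST.pr, ST.nat,
    ST.ordc, SV.var, SV.par, hPP, hLL, hdec, hCan, hLn, hp', hq', hk, hD, hCS]

theorem dec_sub {c : T} {k : O} (hc : c ∈ D (Iio k)) : dec c ⊆ D (Iio k) := by
  rintro x ⟨b, φ, v, rfl, -, hx, -⟩
  exact D_mono (Iio_subset_Iio (ord_mem.1 (pr_mem.1 hc).1).le) hx

theorem kg (F : FD) : (D (Iio F.κ) : Set T) ⊆ D (Iio F.γ) := D_mono (Iio_subset_Iio F.g.kg.le)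

theorem P_low (hPUN : G_PUN) {F : FD} {j : O} {p : T} (h : p ∈ F.P j) : p ∈ D (Iio F.κ) :=
  (((hPUN F).2 j p).1 h).low

theorem EiS_sub (hPUN : G_PUN) {F : FD} {p' q' : T} (hq : q' ∈ F.P F.κ) (e : O → T → T) {j : O}
    {r : T} (hr : r ∈ F.P j) {b : O}
    (hb : ∀ i < j, i < F.κ → i < b ∧ F.η i ≤ b ∧ F.P i ⊆ D (Iio b)) :
    EiS F p' q' e j r ⊆ D (Iio b) := by
  rintro z ⟨i, hij, hik, x, hx, hz⟩
  obtain ⟨h1, h2, h3⟩ := hb i hij hik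
  have hr' := ((hPUN F).2 j r).1 hr
  have hq' := ((hPUN F).2 F.κ q').1 hq
  have h4 : x < b := hx.trans ((hr'.len i hij hik).trans_le h2)
  have hi : (Tr.ord i : T) ∈ D (Iio b) := ord_mem.2 h1
  have hx' : (Tr.ord x : T) ∈ D (Iio b) := ord_mem.2 h4
  rcases hz with rfl | ⟨s, rfl, hs⟩
  · exact pr_mem.2 ⟨hi, pr_mem.2 ⟨nat_mem _ _, hx'⟩⟩
  · have hs' : s ∈ F.P i := by
      rcases hs with ⟨h5, h6⟩ | ⟨_, h6⟩
      · exact (hq'.ro i hik hik x h5).1 h6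
      · exact h6.1
    exact pr_mem.2 ⟨hi, pr_mem.2 ⟨nat_mem _ _, pr_mem.2 ⟨hx', h3 hs'⟩⟩⟩

theorem EiS_k (hPUN : G_PUN) {F : FD} {p' q' : T} (hq : q' ∈ F.P F.κ) (e : O → T → T) {j : O}
    {r : T} (hr : r ∈ F.P j) : EiS F p' q' e j r ⊆ D (Iio F.κ) :=
  EiS_sub hPUN hq e hr fun i _ hi => ⟨hi, (F.e.lt i hi).le, fun _ h => P_low hPUN h⟩

theorem EiS_e (hPUN : G_PUN) (hPBD : G_PBD) {F : FD} {p' q' : T} (hq : q' ∈ F.P F.κ)
    (e : O → T → T) {j : O} (hj : j < F.κ) {r : T} (hr : r ∈ F.P j) :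
    EiS F p' q' e j r ⊆ D (Iio (F.η j)) := by
  refine EiS_sub hPUN hq e hr fun i hij hi => ⟨hij.trans (F.e.low j hj).2,
    (F.e.inc j hj i hij).le, ?_⟩
  obtain ⟨b, hb, hbb⟩ := (hPBD F).1 i hi
  exact hbb.trans (D_mono (Iio_subset_Iio (hb.trans (F.e.inc j hj i hij)).le))

theorem FF_sub (F : FD) (p' q' x : T) : FF F p' q' x ⊆ D (Iio F.κ) := by
  intro y hy
  rw [FF_eq] at hy
  exact hy.2.1

/-- The codes of the sections. -/
theorem sec (hEIU : G_EIU) (hCNC : G_CNC) (hPUN : G_PUN) (hPBD : G_PBD) {F : FD} {p' q' : T}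
    (hq : q' ∈ F.P F.κ) {i : O} (hi : i < F.κ) {v : T} (hv : v ∈ F.P i)
    (hM : FF F p' q' (.pr (.ord i) v) ∈ F.M)
    (hE : FF F p' q' (.pr (.ord i) v) = EiS F p' q' (Ei F p' q') i v) :
    Ei F p' q' i v ∈ D (Iio F.κ) ∧ ∀ G : Set T,
      (∀ z, Tr.pr (.pr (.ord i) v) z ∈ G ↔ z ∈ FF F p' q' (.pr (.ord i) v)) →
      ∀ c ∈ D (Iio F.γ), (CS F (.ord i) v c G ↔ c = Ei F p' q' i v) := by
  have h1 : FF F p' q' (.pr (.ord i) v) ⊆ D (Iio (F.η i)) := by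
    rw [hE]; exact EiS_e hPUN hPBD hq _ hi hv
  obtain ⟨c₀, hc₀, hX⟩ := F.g.m2 _ hM (F.η i) (F.e.lt i hi) h1
  have hEi : Ei F p' q' i v = canon (FF F p' q' (.pr (.ord i) v)) := by
    rw [hEIU, hE]
  obtain ⟨h2, h3⟩ := hCNC.1 _ ⟨c₀, hX.symm⟩
  have h4 := hCNC.2.2.1 _ F.κ ⟨c₀, hc₀, hX.symm⟩
  rw [← hEi] at h2 h3 h4
  refine ⟨h4, fun G hG c hc => ?_⟩
  constructor
  · rintro ⟨h5, h6⟩
    refine hCNC.2.2.2.1 _ _ h5 h3 ?_
    rw [h2]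
    ext z
    constructor
    · intro hz
      exact (hG z).1 ((h6 z (dec_sub hc hz)).1 hz)
    · intro hz
      exact (h6 z (kg F (FF_sub F p' q' _ hz))).2 ((hG z).2 hz)
  · rintro rfl
    refine ⟨h3, fun z _ => ?_⟩
    rw [h2, hG]

theorem LnT_iff {p : T} {i x : O} : LnT p (.ord i) (.ord x) ↔ x < ln p i := by
  constructor
  · rintro ⟨i', x', h1, h2, h3⟩
    injection h1 with h1
    injection h2 with h2
    subst h1 h2
    exact h3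
  · intro h
    exact ⟨i, x, rfl, rfl, h⟩

theorem key (hEIU : G_EIU) (hCNC : G_CNC) (hPUN : G_PUN) (hPBD : G_PBD) {F : FD} {p' q' : T}
    (hp : p' ∈ F.P F.κ) (hq : q' ∈ F.P F.κ)
    (hM : ∀ x ∈ D (Iio F.γ), FF F p' q' x ∈ F.M) : ∀ j ≤ F.κ, ∀ r ∈ F.P j, F.Le j r p' →
    FF F p' q' (.pr (.ord j) r) = EiS F p' q' (Ei F p' q') j r := by
  intro j
  induction j using WellFoundedLT.induction with
  | _ j ih =>
  intro hj r hr hrp
  have hpl : p' ∈ D (Iio F.κ) := P_low hPUN hp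
  have hik : ∀ i < F.κ, (Tr.ord i : T) ∈ D (Iio F.γ) := fun i hi => ord_mem.2 (hi.trans F.g.kg)
  -- sections
  have hsec : ∀ i < j, i < F.κ → ∀ v ∈ F.P i, F.Le i v p' → Ei F p' q' i v ∈ D (Iio F.κ) ∧
      ∀ c ∈ D (Iio F.γ), (CS F (.ord i) v c (Gph F p' q' (.pr (.ord j) r)) ↔
        c = Ei F p' q' i v) := by
    intro i hij hi v hv hvp
    have h1 := sec hEIU hCNC hPUN hPBD hq hi hv
      (hM _ (pr_mem.2 ⟨hik i hi, kg F (P_low hPUN hv)⟩)) (ih i hij hi.le v hv hvp)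
    refine ⟨h1.1, h1.2 _ fun z => ?_⟩
    constructor
    · rintro ⟨x', y', h2, h3, h4⟩
      injection h2 with h2 h2'
      subst h2 h2'
      exact h4
    · intro hz
      exact ⟨_, z, rfl, mem_prd.2 ⟨i, j, v, rfl, rfl, hij, P_low hPUN hv⟩, hz⟩
  have hTT : ∀ i < j, i < F.κ → ∀ (x : O) (s : T),
      (TT F p' r (.ord i) (.ord x) s (Gph F p' q' (.pr (.ord j) r)) ↔
        s ∈ TrN F p' i (Ei F p' q' i) (nm r i x)) := by
    intro i hij hi x s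
    unfold TT
    simp only [PP_iff hi.le]
    constructor
    · rintro ⟨h1, h2⟩
      refine ⟨h1, fun s' hs' hss' => ?_⟩
      obtain ⟨s'', -, h3, h4, v, -, h5, h6, h7, c, h8, h9, h10⟩ := h2 s'
        (kg F (P_low hPUN hs')) hs' ((LL_iff hi.le (P_low hPUN hs') (P_low hPUN h1)).2 hss')
      have h7' := (LL_iff hi.le (P_low hPUN h6) hpl).1 h7
      obtain ⟨h11, h12⟩ := hsec i hij hi v h6 h7'
      have h13 := (h12 c h8).1 h9
      subst h13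
      exact ⟨s'', h3, (LL_iff hi.le (P_low hPUN h3) (P_low hPUN hs')).1 h4, v, h5, h6, h7',
        (LL_iff hi.le (P_low hPUN h3) h11).1 h10⟩
    · rintro ⟨h1, h2⟩
      refine ⟨h1, fun s' _ hs' hss' => ?_⟩
      obtain ⟨s'', h3, h4, v, h5, h6, h7, h8⟩ := h2 s' hs'
        ((LL_iff hi.le (P_low hPUN hs') (P_low hPUN h1)).1 hss')
      obtain ⟨h11, h12⟩ := hsec i hij hi v h6 h7
      exact ⟨s'', kg F (P_low hPUN h3), h3,
        (LL_iff hi.le (P_low hPUN h3) (P_low hPUN hs')).2 h4, v, kg F (P_low hPUN h6), h5, h6,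
        (LL_iff hi.le (P_low hPUN h6) hpl).2 h7, _, kg F h11, (h12 _ (kg F h11)).2 rfl,
        (LL_iff hi.le (P_low hPUN h3) h11).2 h8⟩
  ext z
  rw [FF_eq]
  constructor
  · rintro ⟨-, -, -, ti, -, h1, h2, h3, tx, -, h4, h5⟩
    obtain ⟨i, rfl⟩ := isOrd_iff.1 h1
    have hij : i < j := h2
    have hi : i < F.κ := h3
    obtain ⟨i', x, h6, rfl, h7⟩ := h4
    injection h6 with h6
    subst h6
    refine ⟨i, hij, hi, x, h7, ?_⟩
    rcases h5 with h5 | ⟨s, -, h5, h8⟩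
    · exact Or.inl h5
    · refine Or.inr ⟨s, h5, ?_⟩
      rcases h8 with ⟨h8, h9⟩ | ⟨h8, h9⟩
      · exact Or.inl ⟨LnT_iff.1 h8, h9⟩
      · rw [LnT_iff, not_lt] at h8
        exact Or.inr ⟨h8, (hTT i hij hi x s).1 h9⟩
  · intro hz
    have hzk := EiS_k hPUN hq _ hr hz
    obtain ⟨i, hij, hi, x, hx, hz⟩ := hz
    have hr' := ((hPUN F).2 j r).1 hr
    have hxk : x < F.κ := hx.trans ((hr'.len i hij hi).trans (F.e.lt i hi))
    refine ⟨kg F hzk, hzk, trivial, .ord i, hik i hi, trivial, hij, hi, .ord x, hik x hxk,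
      LnT_iff.2 hx, ?_⟩
    rcases hz with hz | ⟨s, hz, h8⟩
    · exact Or.inl hz
    · have hs : s ∈ D (Iio F.κ) := by
        rw [hz] at hzk
        exact (pr_mem.1 (pr_mem.1 (pr_mem.1 hzk).2).2).2
      refine Or.inr ⟨s, kg F hs, hz, ?_⟩
      rcases h8 with ⟨h8, h9⟩ | ⟨h8, h9⟩
      · exact Or.inl ⟨LnT_iff.2 h8, h9⟩
      · refine Or.inr ⟨?_, (hTT i hij hi x s).2 h9⟩
        rw [LnT_iff, not_lt]
        exact h8

theorem thm (hEIU : G_EIU) (hREC : G_REC) (hPUN : G_PUN) (hPBD : G_PBD) (hPIM : G_PIM)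
    (hCNC : G_CNC) (hLNS : G_LNS) (hDEC : G_DEC) : G_EIM := by
  intro F p' hp q' hq _
  have h : SOM F.γ F.M F.M := F.g.m1
  obtain ⟨hPP, hLL, hdec, hCan, hLn⟩ := sd_rules hPIM hLNS hDEC hCNC F
  have hpl : p' ∈ D (Iio F.κ) := P_low hPUN hp
  have hql : q' ∈ D (Iio F.κ) := P_low hPUN hq
  have hPsi := Psi_SD hPIM hLNS hDEC hCNC F (kg F hpl) (kg F hql)
  have hprd : SD F.γ F.M F.M (fun e _ => e.fst ∈ prd F e.snd) :=
    SD.and (SD.eq (ST.fst ST.id) (ST.pr (ST.fst (ST.fst ST.id)) (ST.snd (ST.fst ST.id))))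
      (SD.and (SD.isOrd (ST.fst (ST.fst ST.id))) (SD.and (SD.isOrd (ST.fst (ST.snd ST.id)))
        (SD.and (SD.llt (ST.fst (ST.fst ST.id)) (ST.fst (ST.snd ST.id)))
          (SD.mem (ST.snd (ST.fst ST.id)) (SV.par (D_in F.g.kg))))))
  have hcl : ∃ d₀ < F.γ, ∀ d < F.γ, d₀ ≤ d → ∀ x ∈ D (Iio d), prd F x ⊆ D (Iio d) := by
    refine ⟨F.κ, F.g.kg, fun d _ hd x hx z hz => ?_⟩
    obtain ⟨i, j, v, rfl, h2, h3, h4⟩ := mem_prd.1 hz
    have h5 : x.fst ∈ D (Iio d) := fst_mem hx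
    rw [h2] at h5
    exact pr_mem.2 ⟨ord_mem.2 (h3.trans (ord_mem.1 h5)), D_mono (Iio_subset_Iio hd) h4⟩
  have hF : ∀ x ∈ D (Iio F.γ), ∀ y, y ∈ FF F p' q' x ↔ y ∈ D (Iio F.γ) ∧
      Psi F p' q' x y {p | ∃ x' y' : T, p = .pr x' y' ∧ x' ∈ prd F x ∧
        y' ∈ FF F p' q' x'} := by
    intro x _ y
    rw [FF_eq]
    rfl
  have hrec := (hREC F.γ F.M F.M h (prd F) (FF F p' q') (Psi F p' q') hprd hPsi
    (wf_prd F) hcl hF (fun d _ => ⟨F.κ, F.g.kg, fun x _ => FF_sub F p' q' x⟩)).1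
  have hFs : ∀ {s t : T → T}, ST F.γ s → ST F.γ t →
      SD F.γ F.M F.M (fun e _ => s e ∈ FF F p' q' (t e)) := fun hs ht =>
    SD.sub (P := fun e _ => e.snd ∈ FF F p' q' e.fst) hrec (ht.pr hs)
  have hM : ∀ x ∈ D (Iio F.γ), FF F p' q' x ∈ F.M := by
    intro x hx
    exact SOM.of_SD (k := F.γ) (S := F.M) (S' := F.M) F.g.kg (FF_sub F p' q' x)
      (hFs ST.id (ST.const hx))
  have hkey := key hEIU hCNC hPUN hPBD hp hq hM
  have h1 : SD F.γ F.M F.M (fun e _ => PP F e.fst e.snd.fst ∧ LL F e.fst e.snd.fst p' ∧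
      Canon e.snd.snd ∧ ∀ z ∈ D (Iio F.γ), (z ∈ dec e.snd.snd ↔
        z ∈ FF F p' q' (.pr e.fst e.snd.fst))) := by
    refine SD.and (hPP (ST.fst ST.id) (ST.fst (ST.snd ST.id))) (SD.and
      (hLL (ST.fst ST.id) (ST.fst (ST.snd ST.id)) (ST.const (kg F hpl)))
      (SD.and (hCan (ST.snd (ST.snd ST.id))) ?_))
    refine SD.allT (P := fun e z _ => (z ∈ dec e.snd.snd ↔
        z ∈ FF F p' q' (.pr e.fst e.snd.fst))) ?_
    exact SD.iff (hdec (ST.fst ST.id) (ST.snd (ST.snd (ST.snd ST.id))))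
      (hFs (ST.fst ST.id) (ST.pr (ST.fst (ST.snd ST.id)) (ST.fst (ST.snd (ST.snd ST.id)))))
  refine h1.congr fun e he σ hσ => ?_
  have hc : e.snd.snd ∈ D (Iio F.γ) := snd_mem (snd_mem he)
  have hfs : FF F p' q' (.pr e.fst e.snd.fst) ∈ F.M :=
    hM _ (pr_mem.2 ⟨fst_mem he, fst_mem (snd_mem he)⟩)
  constructor
  · rintro ⟨⟨j, hj, hje, hr⟩, h2, h3, h4⟩
    rw [hje, LL_iff hj (P_low hPUN hr) hpl] at h2
    refine ⟨j, hj, hje, hr, h2, ?_⟩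
    rw [hEIU, ← hkey j hj _ hr h2, ← hje]
    rw [← hCNC.2.1 _ h3]
    congr 1
    ext z
    constructor
    · intro hz
      exact (h4 z (kg F (FF_sub F p' q' _ hz))).2 hz
    · intro hz
      exact (h4 z (dec_sub hc hz)).1 hz
  · rintro ⟨j, hj, hje, hr, h2, h3⟩
    have h4 : Ei F p' q' j e.snd.fst = canon (FF F p' q' (.pr e.fst e.snd.fst)) := by
      rw [hEIU, ← hkey j hj _ hr h2, ← hje]
    obtain ⟨c, hc', hcc⟩ := hfs
    obtain ⟨h5, h6⟩ := hCNC.1 _ ⟨c, hcc.symm⟩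
    rw [← h4, h3] at h5 h6
    refine ⟨⟨j, hj, hje, hr⟩, ⟨j, hj, hje, P_low hPUN hr, hpl, h2⟩, h6, fun z _ => ?_⟩
    rw [h5]

end Pool.Agent.Helper17.OD.PkEIM
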